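import Pool.Agent.P.MP_46d9e0_co.Graph

set_option autoImplicit false

namespace Pool.Agent.Results.MP_46d9e0_co.LowerMedian

/-- In a graph of maximum degree at most four on `n` vertices, with adjacency eigenvalues listed in
decreasing order from index `0`, every eigenvalue of index at most `n / 2` is at least `-√3`.
Index `n / 2` is the lower median eigenvalue. -/
theorem result (V : Type) [Fintype V] [DecidableEq V] (G : SimpleGraph V) [DecidableRel G.Adj]
    (hG : G.maxDegree ≤ 4) (i : Fin (Fintype.card V)) (hi : (i : ℕ) ≤ Fintype.card V / 2) :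
    -√3 ≤ (G.isHermitian_adjMatrix ℝ).eigenvalues₀ i :=
  Pool.Agent.P.MP_46d9e0_co.main G (fun v => le_trans (G.degree_le_maxDegree v) hG) i hi

end Pool.Agent.Results.MP_46d9e0_co.LowerMedian
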